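import Mathlib
import Pool.Agent.Q24.CT.Main

/-!
# MP_0fcb7f_al : orders of products of two class transpositions

If the product of two class transpositions has finite order, then its order divides `840`.
In particular only finitely many integers occur as such orders.
-/

set_option autoImplicit false

namespace Pool.Agent.Results.MP_0fcb7f_al.FiniteOrders

open Pool.Agent.Q24.CT

/-- `σ` is a class transposition: there are disjoint residue classes `r₁(m₁)` and `r₂(m₂)`, with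
`0 ≤ rᵢ < mᵢ`, such that `σ` swaps `r₁ + k m₁` and `r₂ + k m₂` for all integers `k` and fixes all
other integers. -/
def IsClassTransposition (σ : Equiv.Perm ℤ) : Prop :=
  ∃ r₁ m₁ r₂ m₂ : ℤ, (0 ≤ r₁ ∧ r₁ < m₁) ∧ (0 ≤ r₂ ∧ r₂ < m₂) ∧
    Disjoint {n : ℤ | ∃ k : ℤ, n = r₁ + k * m₁} {n : ℤ | ∃ k : ℤ, n = r₂ + k * m₂} ∧
    (∀ k : ℤ, σ (r₁ + k * m₁) = r₂ + k * m₂ ∧ σ (r₂ + k * m₂) = r₁ + k * m₁) ∧
    ∀ n : ℤ, n ∉ {n : ℤ | ∃ k : ℤ, n = r₁ + k * m₁} →
      n ∉ {n : ℤ | ∃ k : ℤ, n = r₂ + k * m₂} → σ n = n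

lemma IsClassTransposition.real {σ : Equiv.Perm ℤ} (h : IsClassTransposition σ) :
    ∃ c : Dat, Real c σ := by
  obtain ⟨r₁, m₁, r₂, m₂, h1, h2, hd, hs, hf⟩ := h
  refine ⟨⟨fun b => if b then r₂ else r₁, fun b => if b then m₂ else m₁, ?_, ?_⟩, ?_, ?_⟩
  · intro b; cases b
    · show 0 < m₁; omega
    · show 0 < m₂; omega
  · intro k l heq
    exact Set.disjoint_left.mp hd ⟨k, rfl⟩ ⟨l, heq⟩
  · rintro b x y ⟨t, hx, hy⟩
    cases b
    · have hx' : x = r₁ + t * m₁ := hx
      have hy' : y = r₂ + t * m₂ := hy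
      rw [hx', hy']; exact (hs t).1
    · have hx' : x = r₂ + t * m₂ := hx
      have hy' : y = r₁ + t * m₁ := hy
      rw [hx', hy']; exact (hs t).2
  · intro x
    by_cases hx1 : ∃ k : ℤ, x = r₁ + k * m₁
    · obtain ⟨k, hk⟩ := hx1
      right
      refine ⟨false, k, hk, ?_⟩
      show σ x = r₂ + k * m₂
      rw [hk]; exact (hs k).1
    by_cases hx2 : ∃ k : ℤ, x = r₂ + k * m₂
    · obtain ⟨k, hk⟩ := hx2
      right
      refine ⟨true, k, hk, ?_⟩
      show σ x = r₁ + k * m₁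
      rw [hk]; exact (hs k).2
    · left
      exact hf x hx1 hx2

/-- **Answer to Q1 (affirmative).**  If the product of two class transpositions has finite order,
then its `840`-th power is the identity, every orbit having at most eight elements; hence the set
of positive integers that occur as orders of products of two class transpositions is finite (it
consists of divisors of `840`). -/
theorem result :
    (∀ σ τ : Equiv.Perm ℤ, IsClassTransposition σ → IsClassTransposition τ →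
      IsOfFinOrder (σ * τ) →
        (∀ x : ℤ, ∃ l : ℕ, 1 ≤ l ∧ l ≤ 8 ∧ ((σ * τ) ^ l) x = x) ∧ orderOf (σ * τ) ∣ 840) ∧
    {n : ℕ | 0 < n ∧ ∃ σ τ : Equiv.Perm ℤ, IsClassTransposition σ ∧ IsClassTransposition τ ∧
      orderOf (σ * τ) = n}.Finite := by
  have key : ∀ σ τ : Equiv.Perm ℤ, IsClassTransposition σ → IsClassTransposition τ →
      IsOfFinOrder (σ * τ) →
        (∀ x : ℤ, ∃ l : ℕ, 1 ≤ l ∧ l ≤ 8 ∧ ((σ * τ) ^ l) x = x) ∧ orderOf (σ * τ) ∣ 840 := by
    intro σ τ hσ hτ hfin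
    obtain ⟨c', hc'⟩ := hσ.real
    obtain ⟨c, hc⟩ := hτ.real
    have horb := orbit hc hc' hfin
    refine ⟨horb, orderOf_dvd_of_pow_eq_one ?_⟩
    ext x
    obtain ⟨l, hl, hl8, h⟩ := horb x
    have hdvd : l ∣ 840 := by interval_cases l <;> decide
    obtain ⟨q, hq⟩ := hdvd
    rw [hq, pow_mul, Equiv.Perm.one_apply]
    exact Equiv.Perm.pow_apply_eq_self_of_apply_eq_self h q
  refine ⟨key, ?_⟩
  refine (Nat.divisors 840).finite_toSet.subset ?_
  rintro n ⟨hn, σ, τ, hσ, hτ, rfl⟩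
  have h1 := (key σ τ hσ hτ (orderOf_pos_iff.mp hn)).2
  simpa using h1

end Pool.Agent.Results.MP_0fcb7f_al.FiniteOrders
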